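import Mathlib

set_option autoImplicit false

namespace Pool.Agent.Lib.MP_6cc975_al

/-- A mixed graph on the vertex set `V`: a simple graph (the underlying graph) together with a set
of directed edges; `dir a b` says that `{a, b}` is a directed edge with origin `a` and
terminus `b`. -/
structure MixedGraph (V : Type) extends SimpleGraph V where
  dir : V → V → Prop
  dir_adj : ∀ a b, dir a b → toSimpleGraph.Adj a b
  dir_asymm : ∀ a b, dir a b → ¬ dir b a

namespace MixedGraph

variable {V : Type} (Γ : MixedGraph V)

/-- The relators of the twisted right-angled Artin group: `a b a⁻¹ b⁻¹` for an undirected edge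
`{a, b}` and `a b a b⁻¹` (that is, `a b a = b`) for a directed edge with origin `a` and
terminus `b`. -/
def relators : Set (FreeGroup V) :=
  {r | ∃ a b, Γ.Adj a b ∧ ¬ Γ.dir a b ∧ ¬ Γ.dir b a ∧
      r = FreeGroup.of a * FreeGroup.of b * (FreeGroup.of a)⁻¹ * (FreeGroup.of b)⁻¹} ∪
  {r | ∃ a b, Γ.dir a b ∧
      r = FreeGroup.of a * FreeGroup.of b * FreeGroup.of a * (FreeGroup.of b)⁻¹}

/-- The twisted right-angled Artin group `T(Γ)`. -/
abbrev TRAAG : Type := PresentedGroup Γ.relators

/-- A vertex is negative if it is the terminus of some directed edge. -/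
def Negative (x : V) : Prop := ∃ a, Γ.dir a x

/-- A sinkhole: every edge `{y, x}` is directed with origin `y` and terminus `x`. -/
def Sinkhole (x : V) : Prop := ∀ y, Γ.Adj y x → Γ.dir y x

/-- `Γ` is special if every negative vertex is a sinkhole. -/
def Special : Prop := ∀ x, Γ.Negative x → Γ.Sinkhole x

/-- `b` is a satellite of `a`: `b` is at distance exactly `2` from `a` in the underlying graph and
every vertex adjacent to `b` is adjacent to `a`. -/
def Satellite (a b : V) : Prop :=
  Γ.toSimpleGraph.edist a b = 2 ∧ ∀ y, Γ.Adj b y → Γ.Adj a y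

/-- No sinkhole has a satellite. -/
def NoSatellites : Prop := ∀ a b, Γ.Sinkhole a → ¬ Γ.Satellite a b

/-- Isomorphism of mixed graphs: a bijection of the vertex sets carrying edges to edges and
directed edges to directed edges with origins to origins and termini to termini, in both
directions. -/
def Isomorphic {W : Type} (Γ : MixedGraph V) (Δ : MixedGraph W) : Prop :=
  ∃ f : V ≃ W, (∀ a b, Γ.Adj a b ↔ Δ.Adj (f a) (f b)) ∧ (∀ a b, Γ.dir a b ↔ Δ.dir (f a) (f b))

/-- `Γ` is rigid if every (finite) mixed graph with isomorphic group is isomorphic to `Γ`. -/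
def Rigid : Prop :=
  ∀ (W : Type) [Finite W] (Δ : MixedGraph W), Nonempty (Δ.TRAAG ≃* Γ.TRAAG) → Isomorphic Δ Γ

end MixedGraph

end Pool.Agent.Lib.MP_6cc975_al
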