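import Pool.Agent.Lib.MP_6cc975_al.Iso

set_option autoImplicit false

namespace Pool.Agent.Lib.MP_6cc975_al

open MixedGraph

/-- The group of unitriangular `3 × 3` matrices over the field with two elements. -/
@[ext]
structure Heis where
  x : F2
  y : F2
  z : F2

namespace Heis

instance : Mul Heis := ⟨fun a b => ⟨a.x + b.x, a.y + b.y, a.z + b.z + a.x * b.y⟩⟩
instance : One Heis := ⟨⟨0, 0, 0⟩⟩
instance : Inv Heis := ⟨fun a => ⟨-a.x, -a.y, -a.z + a.x * a.y⟩⟩

@[simp] lemma mul_x (a b : Heis) : (a * b).x = a.x + b.x := rfl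
@[simp] lemma mul_y (a b : Heis) : (a * b).y = a.y + b.y := rfl
@[simp] lemma mul_z (a b : Heis) : (a * b).z = a.z + b.z + a.x * b.y := rfl
@[simp] lemma one_x : (1 : Heis).x = 0 := rfl
@[simp] lemma one_y : (1 : Heis).y = 0 := rfl
@[simp] lemma one_z : (1 : Heis).z = 0 := rfl
@[simp] lemma inv_x (a : Heis) : (a⁻¹).x = -a.x := rfl
@[simp] lemma inv_y (a : Heis) : (a⁻¹).y = -a.y := rfl
@[simp] lemma inv_z (a : Heis) : (a⁻¹).z = -a.z + a.x * a.y := rfl

instance : Group Heis :=
  Group.ofLeftAxioms
    (by intro a b c; ext <;> simp <;> ring)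
    (by intro a; ext <;> simp)
    (by
      intro a
      ext
      · simp only [mul_x, inv_x, one_x]; ring
      · simp only [mul_y, inv_y, one_y]; ring
      · simp only [mul_z, inv_z, inv_x, one_z]; ring)

end Heis

namespace MixedGraph

variable {V W : Type} (Γ : MixedGraph V)

/-- Generators of the group. -/
def gen (v : V) : Γ.TRAAG := PresentedGroup.of v

lemma gen_comm {a b : V} (h1 : Γ.Adj a b) (h2 : ¬ Γ.dir a b) (h3 : ¬ Γ.dir b a) :
    Γ.gen a * Γ.gen b = Γ.gen b * Γ.gen a := by
  have hmem : FreeGroup.of a * FreeGroup.of b * (FreeGroup.of a)⁻¹ * (FreeGroup.of b)⁻¹ ∈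
      Γ.relators := Or.inl ⟨a, b, h1, h2, h3, rfl⟩
  have h := PresentedGroup.one_of_mem hmem
  simp only [_root_.map_mul, _root_.map_inv] at h
  have h' : Γ.gen a * Γ.gen b * (Γ.gen a)⁻¹ * (Γ.gen b)⁻¹ = 1 := h
  rw [mul_inv_eq_one, mul_inv_eq_iff_eq_mul] at h'
  exact h'

lemma gen_klein {a b : V} (h : Γ.dir a b) : Γ.gen a * Γ.gen b * Γ.gen a = Γ.gen b := by
  have hmem : FreeGroup.of a * FreeGroup.of b * FreeGroup.of a * (FreeGroup.of b)⁻¹ ∈
      Γ.relators := Or.inr ⟨a, b, h, rfl⟩
  have h1 := PresentedGroup.one_of_mem hmem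
  simp only [_root_.map_mul, _root_.map_inv] at h1
  have h' : Γ.gen a * Γ.gen b * Γ.gen a * (Γ.gen b)⁻¹ = 1 := h1
  rwa [mul_inv_eq_one] at h'

/-- Homomorphisms from the group. -/
lemma lift_ok {G : Type} [Group G] (f : V → G)
    (h1 : ∀ a b, Γ.Adj a b → ¬ Γ.dir a b → ¬ Γ.dir b a → f a * f b = f b * f a)
    (h2 : ∀ a b, Γ.dir a b → f a * f b * f a = f b) :
    ∀ r ∈ Γ.relators, FreeGroup.lift f r = 1 := by
  rintro r (⟨a, b, k1, k2, k3, rfl⟩ | ⟨a, b, k, rfl⟩)
  · simp only [_root_.map_mul, _root_.map_inv, FreeGroup.lift_apply_of]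
    rw [mul_inv_eq_one, mul_inv_eq_iff_eq_mul]
    exact h1 a b k1 k2 k3
  · simp only [_root_.map_mul, _root_.map_inv, FreeGroup.lift_apply_of]
    rw [mul_inv_eq_one]
    exact h2 a b k

/-- The homomorphism to the field with two elements given by a function on vertices. -/
def hom (α : V → F2) : Γ.TRAAG →* Multiplicative F2 :=
  PresentedGroup.toGroup (f := fun v => Multiplicative.ofAdd (α v)) (lift_ok Γ _
    (fun a b _ _ _ => mul_comm _ _)
    (fun a b _ => by
      have h : Multiplicative.ofAdd (α a) * Multiplicative.ofAdd (α a) = 1 := by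
        rw [← ofAdd_add, F2_add_self]; rfl
      rw [mul_right_comm, h, one_mul]))

lemma hom_gen (α : V → F2) (v : V) : Γ.hom α (Γ.gen v) = Multiplicative.ofAdd (α v) :=
  PresentedGroup.toGroup.of _

/-- The additive value. -/
def val (α : V → F2) (g : Γ.TRAAG) : F2 := Multiplicative.toAdd (Γ.hom α g)

lemma val_mul (α : V → F2) (g h : Γ.TRAAG) : Γ.val α (g * h) = Γ.val α g + Γ.val α h := by
  simp [val]

lemma val_gen (α : V → F2) (v : V) : Γ.val α (Γ.gen v) = α v := by
  simp [val, hom_gen]

/-- A function determined by its values on generators. -/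
lemma val_unique (ψ : Γ.TRAAG → F2) (hψ : ∀ g h, ψ (g * h) = ψ g + ψ h) (g : Γ.TRAAG) :
    ψ g = Γ.val (fun v => ψ (Γ.gen v)) g := by
  have hψ1 : ψ 1 = 0 := by
    have := hψ 1 1
    rw [mul_one] at this
    have h2 : ψ 1 + 0 = ψ 1 + ψ 1 := by rw [add_zero]; exact this
    exact (add_left_cancel h2).symm
  let Ψ : Γ.TRAAG →* Multiplicative F2 :=
    { toFun := fun g => Multiplicative.ofAdd (ψ g)
      map_one' := by rw [hψ1]; rfl
      map_mul' := by intro g h; rw [hψ]; rfl }
  have : Ψ = Γ.hom (fun v => ψ (Γ.gen v)) := by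
    apply PresentedGroup.ext
    intro x
    exact (Γ.hom_gen (fun v => ψ (Γ.gen v)) x).symm
  have h2 := congrArg (fun Θ : Γ.TRAAG →* Multiplicative F2 => Multiplicative.toAdd (Θ g)) this
  exact h2

/-- The product of two degree one classes vanishes. -/
def GPerp {G : Type} [Group G] (α β : G → F2) : Prop :=
  ∃ γ : G → F2, ∀ g h, γ (g * h) = γ g + γ h + α g * β h

lemma perp_iff_GPerp (α β : V → F2) : Γ.perp α β ↔ GPerp (Γ.val α) (Γ.val β) := by
  constructor
  · rintro ⟨h1, h2⟩
    let f : V → Heis := fun v => ⟨α v, β v, 0⟩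
    have hok : ∀ r ∈ Γ.relators, FreeGroup.lift f r = 1 := by
      apply lift_ok
      · intro a b k1 k2 k3
        have := h1 a b k1 k2 k3
        ext
        · simp [f, add_comm]
        · simp [f, add_comm]
        · simp only [f, Heis.mul_z, zero_add]
          rcases F2_cases (α a * β b) with k | k <;> rcases F2_cases (α b * β a) with k' | k' <;>
            rw [k, k'] at this ⊢ <;> revert this <;> decide
      · intro a b k
        have := h2 a b k
        ext
        · simp only [f, Heis.mul_x]
          rw [add_right_comm, F2_add_self, zero_add]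
        · simp only [f, Heis.mul_y]
          rw [add_right_comm, F2_add_self, zero_add]
        · simp only [f, Heis.mul_z, Heis.mul_x]
          linear_combination this
    let Φ : Γ.TRAAG →* Heis := PresentedGroup.toGroup hok
    have hΦ : ∀ v, Φ (Γ.gen v) = f v := fun v => PresentedGroup.toGroup.of hok
    have hx : ∀ g, (Φ g).x = Γ.val α g := by
      intro g
      rw [Γ.val_unique (fun g => (Φ g).x) (by intro g h; simp) g]
      congr 1
      funext v
      rw [hΦ]
    have hy : ∀ g, (Φ g).y = Γ.val β g := by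
      intro g
      rw [Γ.val_unique (fun g => (Φ g).y) (by intro g h; simp) g]
      congr 1
      funext v
      rw [hΦ]
    refine ⟨fun g => (Φ g).z, fun g h => ?_⟩
    show (Φ (g * h)).z = (Φ g).z + (Φ h).z + Γ.val α g * Γ.val β h
    rw [_root_.map_mul, Heis.mul_z, hx, hy]
  · rintro ⟨γ, hγ⟩
    refine ⟨fun a b k1 k2 k3 => ?_, fun a b k => ?_⟩
    · have h := congrArg γ (Γ.gen_comm k1 k2 k3)
      rw [hγ, hγ, val_gen, val_gen, val_gen, val_gen] at h
      have h' : α a * β b = α b * β a := by
        have e1 : γ (Γ.gen b) + γ (Γ.gen a) = γ (Γ.gen a) + γ (Γ.gen b) := add_comm _ _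
        rw [e1] at h
        exact add_left_cancel h
      rw [h', F2_add_self]
    · have h := congrArg γ (Γ.gen_klein k)
      rw [hγ, hγ, val_mul, val_gen, val_gen, val_gen, val_gen] at h
      have e : γ (Γ.gen b) + 0 = γ (Γ.gen b) + (α a * β b + α b * β a + α a * β a) := by
        rw [add_zero]
        conv_lhs => rw [← h]
        have h2 := F2_add_self (γ (Γ.gen a))
        linear_combination h2
      exact (add_left_cancel e).symm

variable [Fintype V] [DecidableEq V] [Fintype W] [DecidableEq W]

/-- A group isomorphism induces a compatible linear isomorphism. -/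
def perpIso {Γ : MixedGraph V} {Δ : MixedGraph W} (e : Δ.TRAAG ≃* Γ.TRAAG) :
    PerpIso Γ Δ where
  A :=
    { toFun := fun α w => Γ.val α (e (Δ.gen w))
      map_add' := by
        intro α β
        funext w
        have h := Γ.val_unique (fun g => Γ.val α g + Γ.val β g)
          (by intro g h; simp only [val_mul]; ring) (e (Δ.gen w))
        simp only [val_gen] at h
        exact h.symm
      map_smul' := by
        intro c α
        funext w
        have h := Γ.val_unique (fun g => c * Γ.val α g)
          (by intro g h; simp only [val_mul]; ring) (e (Δ.gen w))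
        simp only [val_gen] at h
        exact h.symm
      invFun := fun α v => Δ.val α (e.symm (Γ.gen v))
      left_inv := by
        intro α
        funext v
        have h := Δ.val_unique (fun g => Γ.val α (e g)) (by intro g h; simp [val_mul])
          (e.symm (Γ.gen v))
        simp only [MulEquiv.apply_symm_apply, val_gen] at h
        exact h.symm
      right_inv := by
        intro α
        funext w
        have h := Γ.val_unique (fun g => Δ.val α (e.symm g)) (by intro g h; simp [val_mul])
          (e (Δ.gen w))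
        simp only [MulEquiv.symm_apply_apply, val_gen] at h
        exact h.symm }
  perp_iff := by
    intro α β
    have key : ∀ α : V → F2, ∀ g, Γ.val α (e g) = Δ.val (fun w => Γ.val α (e (Δ.gen w))) g := by
      intro α g
      exact Δ.val_unique (fun g => Γ.val α (e g)) (by intro g h; simp [val_mul]) g
    rw [perp_iff_GPerp, perp_iff_GPerp]
    constructor
    · rintro ⟨γ, hγ⟩
      refine ⟨fun g => γ (e g), fun g h => ?_⟩
      show γ (e (g * h)) = γ (e g) + γ (e h) +
        Δ.val (fun w => Γ.val α (e (Δ.gen w))) g * Δ.val (fun w => Γ.val β (e (Δ.gen w))) h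
      rw [_root_.map_mul, hγ, key α, key β]
    · rintro ⟨γ, hγ⟩
      refine ⟨fun g => γ (e.symm g), fun g h => ?_⟩
      have hγ' : ∀ g h, γ (g * h) = γ g + γ h +
        Δ.val (fun w => Γ.val α (e (Δ.gen w))) g * Δ.val (fun w => Γ.val β (e (Δ.gen w))) h := hγ
      show γ (e.symm (g * h)) = γ (e.symm g) + γ (e.symm h) + Γ.val α g * Γ.val β h
      have k1 := key α (e.symm g)
      have k2 := key β (e.symm h)
      rw [MulEquiv.apply_symm_apply] at k1 k2
      rw [_root_.map_mul, hγ', k1, k2]

omit [Fintype V] [DecidableEq V] in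
/-- Every special mixed graph without satellites is rigid. -/
theorem rigid_of_special_noSatellites [Finite V] (Γ : MixedGraph V) (hs : Γ.Special)
    (hn : Γ.NoSatellites) : Γ.Rigid := by
  classical
  intro W _ Δ ⟨e⟩
  haveI := Fintype.ofFinite V
  haveI := Fintype.ofFinite W
  obtain ⟨f, h1, h2⟩ := (perpIso e).isomorphic hs hn
  refine ⟨f.symm, fun a b => ?_, fun a b => ?_⟩
  · rw [h1]; simp
  · rw [h2]; simp

end MixedGraph

end Pool.Agent.Lib.MP_6cc975_al
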