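import Pool.Agent.Lib.MP_6cc975_al.Linear

set_option autoImplicit false

namespace Pool.Agent.Lib.MP_6cc975_al

open MixedGraph Finset

namespace MixedGraph

variable {V W : Type}

/-- `v` is the origin of a directed edge. -/
def Org (Γ : MixedGraph V) (v : V) : Prop := ∃ w, Γ.dir v w

lemma perp_self_iff (Γ : MixedGraph V) (α : V → F2) :
    Γ.perp α α ↔ ∀ v, Γ.Org v → α v = 0 := by
  constructor
  · rintro ⟨-, h⟩ v ⟨w, hw⟩
    have := h v w hw
    rcases F2_cases (α v) with h0 | h1
    · exact h0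
    · exfalso
      rw [h1, mul_one, one_mul, F2_add_self, zero_add, mul_one] at this
      exact one_ne_zero this
  · intro h
    refine ⟨fun a b _ _ _ => ?_, fun a b hab => ?_⟩
    · rw [mul_comm (α b) (α a), F2_add_self]
    · rw [h a ⟨b, hab⟩]; simp

lemma Special.org_not_neg {Γ : MixedGraph V} (hs : Γ.Special) {v : V} (hv : Γ.Org v) :
    ¬ Γ.Negative v := by
  intro hn
  obtain ⟨w, hw⟩ := hv
  exact Γ.dir_asymm _ _ hw (hs v hn w (Γ.dir_adj _ _ hw).symm)

/-- The sum of the negative vertices. -/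
noncomputable def theta (Γ : MixedGraph V) (v : V) : F2 := by
  classical
  exact if Γ.Negative v then 1 else 0

lemma theta_pos (Γ : MixedGraph V) {v : V} (h : Γ.Negative v) : Γ.theta v = 1 := by
  classical
  simp [theta, h]

lemma theta_neg (Γ : MixedGraph V) {v : V} (h : ¬ Γ.Negative v) : Γ.theta v = 0 := by
  classical
  simp [theta, h]

lemma Special.perp_theta {Γ : MixedGraph V} (hs : Γ.Special) (β : V → F2) :
    Γ.perp β (β + Γ.theta) := by
  refine ⟨fun a b h1 h2 h3 => ?_, fun a b h1 => ?_⟩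
  · have ha : ¬ Γ.Negative a := fun hn => h3 (hs a hn b h1.symm)
    have hb : ¬ Γ.Negative b := fun hn => h2 (hs b hn a h1)
    simp only [Pi.add_apply, theta_neg Γ ha, theta_neg Γ hb, add_zero]
    rw [mul_comm (β b) (β a), F2_add_self]
  · have hb : Γ.Negative b := ⟨a, h1⟩
    have ha : ¬ Γ.Negative a := hs.org_not_neg ⟨b, h1⟩
    simp only [Pi.add_apply, theta_pos Γ hb, theta_neg Γ ha, add_zero]
    rcases F2_cases (β a) with h | h <;> rcases F2_cases (β b) with h' | h' <;> rw [h, h'] <;>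
      decide

variable [DecidableEq V] [DecidableEq W]

lemma theta_undir (Γ : MixedGraph V) {θ : V → F2} (h : ∀ β, Γ.perp β (β + θ)) {u w : V}
    (h1 : Γ.Adj u w) (h2 : ¬ Γ.dir u w) (h3 : ¬ Γ.dir w u) : θ u = 0 := by
  have := (h (Pi.single w 1)).1 u w h1 h2 h3
  have e : (Pi.single w (1 : F2) : V → F2) u = 0 := Pi.single_eq_of_ne h1.ne 1
  simp only [Pi.add_apply, e, Pi.single_eq_same] at this
  simpa using this

lemma theta_org (Γ : MixedGraph V) {θ : V → F2} (h : ∀ β, Γ.perp β (β + θ)) {u w : V}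
    (h1 : Γ.dir u w) : θ u = 0 := by
  have := (h (Pi.single w 1)).2 u w h1
  have e : (Pi.single w (1 : F2) : V → F2) u = 0 := Pi.single_eq_of_ne (Γ.dir_ne h1) 1
  simp only [Pi.add_apply, e, Pi.single_eq_same] at this
  simpa using this

lemma theta_term (Γ : MixedGraph V) {θ : V → F2} (h : ∀ β, Γ.perp β (β + θ)) {u w : V}
    (h1 : Γ.dir u w) : θ w = 1 := by
  have := (h (Pi.single u 1)).2 u w h1
  have e : (Pi.single u (1 : F2) : V → F2) w = 0 := Pi.single_eq_of_ne (Γ.dir_ne h1).symm 1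
  have h0 := theta_org Γ h h1
  simp only [Pi.add_apply, e, Pi.single_eq_same, h0] at this
  rcases F2_cases (θ w) with h2 | h2
  · rw [h2] at this; exfalso; revert this; decide
  · exact h2

lemma special_of_theta (Γ : MixedGraph V) {θ : V → F2} (h : ∀ β, Γ.perp β (β + θ)) :
    Γ.Special := by
  rintro x ⟨a, ha⟩ y hy
  have hx := theta_term Γ h ha
  by_contra hyx
  by_cases hxy : Γ.dir x y
  · rw [theta_org Γ h hxy] at hx
    exact zero_ne_one hx
  · rw [theta_undir Γ h hy.symm hxy hyx] at hx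
    exact zero_ne_one hx

lemma theta_of_not_neg (Γ : MixedGraph V) {θ : V → F2} (h : ∀ β, Γ.perp β (β + θ)) {v : V}
    (hv : ¬ Γ.Negative v) (hadj : ∃ w, Γ.Adj v w) : θ v = 0 := by
  obtain ⟨w, hw⟩ := hadj
  by_cases h1 : Γ.dir v w
  · exact theta_org Γ h h1
  · exact theta_undir Γ h hw h1 (fun h2 => hv ⟨w, h2⟩)

variable [Fintype V] [Fintype W]

/-- A linear isomorphism compatible with the relation `perp`. -/
structure PerpIso (Γ : MixedGraph V) (Δ : MixedGraph W) where
  A : (V → F2) ≃ₗ[F2] (W → F2)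
  perp_iff : ∀ α β, Γ.perp α β ↔ Δ.perp (A α) (A β)

/-- Distance two from adjacency data. -/
lemma edist_eq_two {U : Type} (G : SimpleGraph U) {a b w : U} (hne : a ≠ b) (hna : ¬ G.Adj a b)
    (h1 : G.Adj a w) (h2 : G.Adj b w) : G.edist a b = 2 := by
  have hle : G.edist a b ≤ 2 := by
    have := (SimpleGraph.Walk.cons h1 (SimpleGraph.Walk.cons h2.symm SimpleGraph.Walk.nil)).edist_le
    simpa using this
  apply le_antisymm hle
  by_contra hlt
  push Not at hlt
  have hcase : G.edist a b = 0 ∨ G.edist a b = 1 := by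
    have h3 : G.edist a b ≠ ⊤ := ne_top_of_lt hlt
    obtain ⟨n, hn⟩ := ENat.ne_top_iff_exists.1 h3
    rw [← hn] at hlt ⊢
    have : n < 2 := by exact_mod_cast hlt
    interval_cases n
    · left; rfl
    · right; rfl
  rcases hcase with h | h
  · exact hne (SimpleGraph.edist_eq_zero_iff.1 h)
  · exact hna (SimpleGraph.edist_eq_one_iff_adj.1 h)

namespace PerpIso

variable {Γ : MixedGraph V} {Δ : MixedGraph W}

/-- The inverse. -/
def symm (f : PerpIso Γ Δ) : PerpIso Δ Γ where
  A := f.A.symm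
  perp_iff := by
    intro α β
    rw [f.perp_iff]
    simp

lemma finrank_Ann (f : PerpIso Γ Δ) (α : V → F2) :
    Module.finrank F2 (Δ.Ann (f.A α)) = Module.finrank F2 (Γ.Ann α) := by
  have h : Δ.Ann (f.A α) = (Γ.Ann α).map (f.A : (V → F2) →ₗ[F2] (W → F2)) := by
    ext β
    rw [Submodule.mem_map]
    constructor
    · intro hβ
      refine ⟨f.A.symm β, ?_, by simp⟩
      rw [mem_Ann, f.perp_iff, LinearEquiv.apply_symm_apply]
      exact hβ
    · rintro ⟨γ, hγ, rfl⟩
      exact (f.perp_iff α γ).1 hγ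
  rw [h]
  exact LinearEquiv.finrank_map_eq f.A (Γ.Ann α)

lemma card_eq (f : PerpIso Γ Δ) : Fintype.card V = Fintype.card W := by
  have := LinearEquiv.finrank_eq f.A
  simpa [Module.finrank_fintype_fun_eq_card] using this

/-- The matrix entries. -/
def ent (f : PerpIso Γ Δ) (v : V) (w : W) : F2 := f.A (Pi.single v 1) w

/-- A transversal of the matrix. -/
def Trans (f : PerpIso Γ Δ) (φ : V ≃ W) : Prop := ∀ v, f.ent v (φ v) = 1

/-- The number of transversals is odd. -/
lemma sum_trans (f : PerpIso Γ Δ) : ∑ φ : V ≃ W, ∏ v, f.ent v (φ v) ≠ 0 := by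
  classical
  obtain ⟨e⟩ : Nonempty (V ≃ W) := ⟨Fintype.equivOfCardEq f.card_eq⟩
  let B : (V → F2) ≃ₗ[F2] (V → F2) := f.A.trans (LinearEquiv.funCongrLeft F2 F2 e)
  let M : Matrix V V F2 := LinearMap.toMatrix' (B : (V → F2) →ₗ[F2] (V → F2))
  have hM : ∀ w v, M w v = f.ent v (e w) := by
    intro w v
    simp only [M, LinearMap.toMatrix'_apply]
    rfl
  have hdet : M.det ≠ 0 := by
    rw [LinearMap.det_toMatrix']
    exact (LinearEquiv.isUnit_det' B).ne_zero
  rw [Matrix.det_apply] at hdet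
  have hone : ∀ σ : Equiv.Perm V, (Equiv.Perm.sign σ) • ∏ i, M (σ i) i = ∏ i, M (σ i) i := by
    intro σ
    rcases Int.units_eq_one_or (Equiv.Perm.sign σ) with h | h
    · rw [h, one_smul]
    · rw [h]
      have : ∀ x : F2, (-1 : ℤˣ) • x = x := by decide
      exact this _
  rw [Finset.sum_congr rfl (fun σ _ => hone σ)] at hdet
  have hre : ∑ φ : V ≃ W, ∏ v, f.ent v (φ v) = ∑ σ : Equiv.Perm V, ∏ i, M (σ i) i := by
    rw [← Equiv.sum_comp (Equiv.equivCongr (Equiv.refl V) e)]
    apply Finset.sum_congr rfl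
    intro σ _
    apply Finset.prod_congr rfl
    intro v _
    rw [hM]
    rfl
  rw [hre]
  exact hdet

lemma prod_eq (f : PerpIso Γ Δ) (φ : V ≃ W) :
    (∏ v, f.ent v (φ v)) ≠ 0 ↔ f.Trans φ := by
  constructor
  · intro h v
    apply F2_ne_zero
    intro h0
    exact h (Finset.prod_eq_zero (Finset.mem_univ v) h0)
  · intro h
    rw [Finset.prod_eq_one (fun v _ => h v)]
    exact one_ne_zero

lemma exists_trans (f : PerpIso Γ Δ) : ∃ φ, f.Trans φ := by
  by_contra hcon
  push Not at hcon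
  apply f.sum_trans
  apply Finset.sum_eq_zero
  intro φ _
  by_contra h
  exact hcon φ ((f.prod_eq φ).1 h)

lemma org_aux (f : PerpIso Γ Δ) {φ : V ≃ W} (hφ : f.Trans φ) {v : V} (hv : ¬ Γ.Org v) :
    ¬ Δ.Org (φ v) := by
  have h1 : Γ.perp (Pi.single v 1) (Pi.single v 1) := by
    rw [perp_self_iff]
    intro w hw
    have : w ≠ v := by rintro rfl; exact hv hw
    exact Pi.single_eq_of_ne this 1
  rw [f.perp_iff, perp_self_iff] at h1
  intro ho
  have h2 := h1 _ ho
  have h3 := hφ v
  unfold ent at h3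
  rw [h2] at h3
  exact zero_ne_one h3

lemma card_org_aux (f : PerpIso Γ Δ) [DecidablePred Γ.Org] [DecidablePred Δ.Org] :
    (univ.filter (fun v => ¬ Γ.Org v)).card ≤ (univ.filter (fun w => ¬ Δ.Org w)).card := by
  obtain ⟨φ, hφ⟩ := f.exists_trans
  apply Finset.card_le_card_of_injOn φ
  · intro v hv
    simp only [coe_filter, mem_univ, true_and, Set.mem_setOf_eq] at hv ⊢
    exact f.org_aux hφ hv
  · exact φ.injective.injOn

lemma org_iff (f : PerpIso Γ Δ) {φ : V ≃ W} (hφ : f.Trans φ) (v : V) :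
    Γ.Org v ↔ Δ.Org (φ v) := by
  classical
  constructor
  · intro hv
    by_contra hcon
    have hcard : (univ.filter (fun v => ¬ Γ.Org v)).card = (univ.filter (fun w => ¬ Δ.Org w)).card :=
      le_antisymm f.card_org_aux f.symm.card_org_aux
    have himg : (univ.filter (fun v => ¬ Γ.Org v)).image φ = univ.filter (fun w => ¬ Δ.Org w) := by
      apply Finset.eq_of_subset_of_card_le
      · intro w hw
        simp only [mem_image, mem_filter, mem_univ, true_and] at hw ⊢
        obtain ⟨u, hu, rfl⟩ := hw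
        exact f.org_aux hφ hu
      · rw [Finset.card_image_of_injective _ φ.injective, hcard]
    have : φ v ∈ (univ.filter (fun v => ¬ Γ.Org v)).image φ := by
      rw [himg]; simp [hcon]
    simp only [mem_image, mem_filter, mem_univ, true_and] at this
    obtain ⟨u, hu, huv⟩ := this
    rw [φ.injective huv] at hu
    exact hu hv
  · intro hv
    by_contra hcon
    exact f.org_aux hφ hcon hv

/-- Every vertex in the support of the image of a non-origin is good. -/
lemma good_of_not_org (f : PerpIso Γ Δ) {v : V} (hv : ¬ Γ.Org v) (z : W) :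
    Δ.Good (f.A (Pi.single v 1)) z := by
  have h1 : Γ.perp (Pi.single v 1) (Pi.single v 1) := by
    rw [perp_self_iff]
    intro w hw
    have : w ≠ v := by rintro rfl; exact hv hw
    exact Pi.single_eq_of_ne this 1
  rw [f.perp_iff, perp_self_iff] at h1
  intro y hy
  exact h1 y ⟨z, hy⟩

lemma good_trans (f : PerpIso Γ Δ) (hΔ : Δ.Special) {φ : V ≃ W} (hφ : f.Trans φ) (v : V) :
    Δ.Good (f.A (Pi.single v 1)) (φ v) := by
  by_cases hv : Γ.Org v
  · intro y hy
    exact absurd ⟨y, hy⟩ (hΔ.org_not_neg ((f.org_iff hφ v).1 hv))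
  · exact f.good_of_not_org hv _

lemma degree_le (f : PerpIso Γ Δ) (hΔ : Δ.Special) {φ : V ≃ W} (hφ : f.Trans φ) (v : V) :
    Δ.degree (φ v) ≤ Γ.degree v := by
  have h1 := degree_add_le Δ (α := f.A (Pi.single v 1)) (hφ v) (f.good_trans hΔ hφ v)
  have h2 := le_degree_add Γ v
  rw [f.finrank_Ann] at h1
  have h3 := f.card_eq
  omega

lemma sum_degree_le (f : PerpIso Γ Δ) (hΔ : Δ.Special) :
    ∑ w, Δ.degree w ≤ ∑ v, Γ.degree v := by
  obtain ⟨φ, hφ⟩ := f.exists_trans
  rw [← Equiv.sum_comp φ]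
  exact Finset.sum_le_sum (fun v _ => f.degree_le hΔ hφ v)

lemma degree_eq (f : PerpIso Γ Δ) (hΓ : Γ.Special) (hΔ : Δ.Special) {φ : V ≃ W}
    (hφ : f.Trans φ) (v : V) : Δ.degree (φ v) = Γ.degree v := by
  have h1 : ∑ v, Δ.degree (φ v) = ∑ v, Γ.degree v := by
    rw [Equiv.sum_comp φ (fun w => Δ.degree w)]
    exact le_antisymm (f.sum_degree_le hΔ) (f.symm.sum_degree_le hΓ)
  exact (Finset.sum_eq_sum_iff_of_le (fun v _ => f.degree_le hΔ hφ v)).1 h1 v (Finset.mem_univ v)

lemma dom (f : PerpIso Γ Δ) (hΓ : Γ.Special) (hΔ : Δ.Special) {φ : V ≃ W}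
    (hφ : f.Trans φ) (v : V) (z : W) (hz : f.ent v z = 1)
    (hgz : Δ.Good (f.A (Pi.single v 1)) z) (y : W) (hzy : Δ.Adj z y) :
    y = φ v ∨ Δ.Adj (φ v) y := by
  refine dominate Δ (α := f.A (Pi.single v 1)) (hφ v) (f.good_trans hΔ hφ v) ?_ z hz hgz y hzy
  rw [f.finrank_Ann, f.degree_eq hΓ hΔ hφ, ← f.card_eq]
  exact le_degree_add Γ v

/-- Basis vectors of distinct non adjacent vertices annihilate each other. -/
lemma perp_single (Γ : MixedGraph V) {v w : V} (hvw : v ≠ w) (h : ¬ Γ.Adj v w) :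
    Γ.perp (Pi.single v 1) (Pi.single w 1) := by
  have key : ∀ a b, Γ.Adj a b → (Pi.single v (1 : F2) : V → F2) a * (Pi.single w (1 : F2) : V → F2) b = 0 ∧
      (Pi.single v (1 : F2) : V → F2) b * (Pi.single w (1 : F2) : V → F2) a = 0 := by
    intro a b hab
    constructor
    · by_cases ha : a = v
      · by_cases hb : b = w
        · subst ha hb; exact absurd hab h
        · rw [Pi.single_eq_of_ne hb]; simp
      · rw [Pi.single_eq_of_ne ha]; simp
    · by_cases hb : b = v
      · by_cases ha : a = w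
        · subst ha hb; exact absurd hab.symm h
        · rw [Pi.single_eq_of_ne ha]; simp
      · rw [Pi.single_eq_of_ne hb]; simp
  have key2 : ∀ a, (Pi.single v (1 : F2) : V → F2) a * (Pi.single w (1 : F2) : V → F2) a = 0 := by
    intro a
    by_cases ha : a = v
    · subst ha
      rw [Pi.single_eq_of_ne hvw]; simp
    · rw [Pi.single_eq_of_ne ha]; simp
  refine ⟨fun a b hab _ _ => ?_, fun a b hab => ?_⟩
  · rw [(key a b hab).1, (key a b hab).2, add_zero]
  · rw [(key a b (Γ.dir_adj _ _ hab)).1, (key a b (Γ.dir_adj _ _ hab)).2, key2]; simp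

/-- The main local analysis: a non-edge mapped to an edge by a transversal. -/
lemma bad_pair (f : PerpIso Γ Δ) (hΓ : Γ.Special) (hΔ : Δ.Special) {φ : V ≃ W}
    (hφ : f.Trans φ) {v1 v2 : V} (hne : v1 ≠ v2) (hnadj : ¬ Γ.Adj v1 v2)
    (hadj : Δ.Adj (φ v1) (φ v2)) :
    f.ent v1 (φ v2) = 1 ∧ f.ent v2 (φ v1) = 1 ∧
      (∀ y, y ≠ φ v1 → y ≠ φ v2 → (Δ.Adj (φ v1) y ↔ Δ.Adj (φ v2) y)) := by
  have hp : Δ.perp (f.A (Pi.single v1 1)) (f.A (Pi.single v2 1)) :=
    (f.perp_iff _ _).1 (perp_single Γ hne hnadj)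
  have e11 : f.A (Pi.single v1 1) (φ v1) = 1 := hφ v1
  have e22 : f.A (Pi.single v2 1) (φ v2) = 1 := hφ v2
  -- the vanishing at origins
  have hor : ∀ v, ¬ Γ.Org v → ∀ w, Δ.Org w → f.A (Pi.single v 1) w = 0 := by
    intro v hv w hw
    obtain ⟨z, hz⟩ := hw
    exact f.good_of_not_org hv z w hz
  -- first, `v1` and `v2` are both origins or both non origins
  have hsame : Γ.Org v1 ↔ Γ.Org v2 := by
    constructor
    · intro h1
      by_contra h2
      have hz := hor v2 h2 (φ v1) ((f.org_iff hφ v1).1 h1)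
      by_cases d1 : Δ.dir (φ v1) (φ v2)
      · have := hp.2 _ _ d1
        rw [e11, e22, hz] at this
        simp at this
      · by_cases d2 : Δ.dir (φ v2) (φ v1)
        · exact absurd ⟨_, d2⟩ (fun hn => hΔ.org_not_neg ((f.org_iff hφ v1).1 h1) hn)
        · have := hp.1 _ _ hadj d1 d2
          rw [e11, e22, hz] at this
          simp at this
    · intro h2
      by_contra h1
      have hz := hor v1 h1 (φ v2) ((f.org_iff hφ v2).1 h2)
      by_cases d1 : Δ.dir (φ v2) (φ v1)
      · have := hp.2 _ _ d1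
        rw [e11, e22, hz] at this
        simp at this
      · by_cases d2 : Δ.dir (φ v1) (φ v2)
        · exact absurd ⟨_, d2⟩ (fun hn => hΔ.org_not_neg ((f.org_iff hφ v2).1 h2) hn)
        · have := hp.1 _ _ hadj d2 d1
          rw [e11, e22, hz] at this
          simp at this
  -- the edge is undirected
  have hnd : ¬ Δ.dir (φ v1) (φ v2) ∧ ¬ Δ.dir (φ v2) (φ v1) := by
    constructor
    · intro d
      have h1 : Γ.Org v1 := (f.org_iff hφ v1).2 ⟨_, d⟩
      have h2 := (f.org_iff hφ v2).1 (hsame.1 h1)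
      exact hΔ.org_not_neg h2 ⟨_, d⟩
    · intro d
      have h2 : Γ.Org v2 := (f.org_iff hφ v2).2 ⟨_, d⟩
      have h1 := (f.org_iff hφ v1).1 (hsame.2 h2)
      exact hΔ.org_not_neg h1 ⟨_, d⟩
  have hco := hp.1 _ _ hadj hnd.1 hnd.2
  rw [e11, e22, one_mul] at hco
  have e12 : f.ent v1 (φ v2) = 1 := by
    apply F2_ne_zero
    intro h0
    unfold ent at h0
    rw [h0] at hco
    simp at hco
  have e21 : f.ent v2 (φ v1) = 1 := by
    apply F2_ne_zero
    intro h0
    unfold ent at h0
    rw [h0] at hco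
    simp at hco
  -- good vertices
  have g12 : Δ.Good (f.A (Pi.single v1 1)) (φ v2) := by
    by_cases h1 : Γ.Org v1
    · intro y hy
      exact absurd ⟨y, hy⟩ (hΔ.org_not_neg ((f.org_iff hφ v2).1 (hsame.1 h1)))
    · exact f.good_of_not_org h1 _
  have g21 : Δ.Good (f.A (Pi.single v2 1)) (φ v1) := by
    by_cases h2 : Γ.Org v2
    · intro y hy
      exact absurd ⟨y, hy⟩ (hΔ.org_not_neg ((f.org_iff hφ v1).1 (hsame.2 h2)))
    · exact f.good_of_not_org h2 _
  refine ⟨e12, e21, fun y hy1 hy2 => ⟨fun h => ?_, fun h => ?_⟩⟩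
  · rcases f.dom hΓ hΔ hφ v2 (φ v1) e21 g21 y h with h3 | h3
    · exact absurd h3 hy2
    · exact h3
  · rcases f.dom hΓ hΔ hφ v1 (φ v2) e12 g12 y h with h3 | h3
    · exact absurd h3 hy1
    · exact h3

/-- Bad pairs of a bijection. -/
def badSet (Γ : MixedGraph V) (Δ : MixedGraph W) (φ : V ≃ W) : Set (V × V) :=
  {p | p.1 ≠ p.2 ∧ ¬ Γ.Adj p.1 p.2 ∧ Δ.Adj (φ p.1) (φ p.2)}

lemma swap_adj (Δ : MixedGraph W) (φ : V ≃ W) {v1 v2 : V} (hne : v1 ≠ v2)
    (htw : ∀ y, y ≠ φ v1 → y ≠ φ v2 → (Δ.Adj (φ v1) y ↔ Δ.Adj (φ v2) y)) (a b : V)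
    (hab : a ≠ b) :
    Δ.Adj (φ (Equiv.swap v1 v2 a)) (φ (Equiv.swap v1 v2 b)) ↔ Δ.Adj (φ a) (φ b) := by
  by_cases ha1 : a = v1
  · subst ha1
    rw [Equiv.swap_apply_left]
    by_cases hb2 : b = v2
    · subst hb2
      rw [Equiv.swap_apply_right]
      exact ⟨fun h => h.symm, fun h => h.symm⟩
    · rw [Equiv.swap_apply_of_ne_of_ne hab.symm hb2]
      exact (htw (φ b) (fun h => hab (φ.injective h).symm) (fun h => hb2 (φ.injective h))).symm
  · by_cases ha2 : a = v2
    · subst ha2
      rw [Equiv.swap_apply_right]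
      by_cases hb1 : b = v1
      · subst hb1
        rw [Equiv.swap_apply_left]
        exact ⟨fun h => h.symm, fun h => h.symm⟩
      · rw [Equiv.swap_apply_of_ne_of_ne hb1 hab.symm]
        exact htw (φ b) (fun h => hb1 (φ.injective h)) (fun h => hab (φ.injective h).symm)
    · rw [Equiv.swap_apply_of_ne_of_ne ha1 ha2]
      by_cases hb1 : b = v1
      · subst hb1
        rw [Equiv.swap_apply_left]
        have := htw (φ a) (fun h => ha1 (φ.injective h)) (fun h => ha2 (φ.injective h))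
        exact ⟨fun h => (this.2 h.symm).symm, fun h => (this.1 h.symm).symm⟩
      · by_cases hb2 : b = v2
        · subst hb2
          rw [Equiv.swap_apply_right]
          have := htw (φ a) (fun h => ha1 (φ.injective h)) (fun h => ha2 (φ.injective h))
          exact ⟨fun h => (this.1 h.symm).symm, fun h => (this.2 h.symm).symm⟩
        · rw [Equiv.swap_apply_of_ne_of_ne hb1 hb2]

/-- There is a transversal without bad pairs. -/
lemma exists_good_trans (f : PerpIso Γ Δ) (hΓ : Γ.Special) (hΔ : Δ.Special) :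
    ∃ φ : V ≃ W, f.Trans φ ∧ badSet Γ Δ φ = ∅ := by
  classical
  by_contra hcon
  push Not at hcon
  have hne : ∀ φ : V ≃ W, f.Trans φ → (badSet Γ Δ φ).Nonempty := by
    intro φ hφ
    exact hcon φ hφ
  -- a choice function on sets of pairs
  let c : Set (V × V) → V × V := fun s => if h : s.Nonempty then h.some else
    (if h' : Nonempty (V × V) then h'.some else (hne _ f.exists_trans.choose_spec).some)
  have hc : ∀ s : Set (V × V), s.Nonempty → c s ∈ s := by
    intro s hs
    simp only [c, dif_pos hs]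
    exact hs.some_mem
  let g : (V ≃ W) → (V ≃ W) := fun φ =>
    (Equiv.swap (c (badSet Γ Δ φ)).1 (c (badSet Γ Δ φ)).2).trans φ
  -- properties
  have hg : ∀ φ : V ≃ W, f.Trans φ → f.Trans (g φ) ∧ badSet Γ Δ (g φ) = badSet Γ Δ φ ∧ g φ ≠ φ := by
    intro φ hφ
    have hmem := hc _ (hne φ hφ)
    set p := c (badSet Γ Δ φ) with hp
    obtain ⟨h1, h2, h3⟩ := hmem
    obtain ⟨e12, e21, htw⟩ := f.bad_pair hΓ hΔ hφ h1 h2 h3
    refine ⟨?_, ?_, ?_⟩
    · intro v
      show f.ent v (φ (Equiv.swap p.1 p.2 v)) = 1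
      by_cases hv1 : v = p.1
      · rw [hv1, Equiv.swap_apply_left]; exact e12
      · by_cases hv2 : v = p.2
        · rw [hv2, Equiv.swap_apply_right]; exact e21
        · rw [Equiv.swap_apply_of_ne_of_ne hv1 hv2]; exact hφ v
    · ext ⟨a, b⟩
      constructor
      · rintro ⟨k1, k2, k3⟩
        exact ⟨k1, k2, (swap_adj Δ φ h1 htw a b k1).1 k3⟩
      · rintro ⟨k1, k2, k3⟩
        exact ⟨k1, k2, (swap_adj Δ φ h1 htw a b k1).2 k3⟩
    · intro heq
      have := congrArg (fun ψ : V ≃ W => ψ p.1) heq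
      simp only [g] at this
      rw [← hp, Equiv.trans_apply, Equiv.swap_apply_left] at this
      exact h1 (φ.injective this).symm
  have hgg : ∀ φ : V ≃ W, f.Trans φ → g (g φ) = φ := by
    intro φ hφ
    obtain ⟨-, hb, -⟩ := hg φ hφ
    have : g (g φ) = (Equiv.swap (c (badSet Γ Δ φ)).1 (c (badSet Γ Δ φ)).2).trans (g φ) := by
      show (Equiv.swap (c (badSet Γ Δ (g φ))).1 (c (badSet Γ Δ (g φ))).2).trans (g φ) = _
      rw [hb]
    rw [this]
    ext v
    simp [g]
  apply f.sum_trans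
  rw [← Finset.sum_filter_ne_zero]
  apply Finset.sum_involution (fun φ _ => g φ)
  · intro φ hφ
    rw [mem_filter, f.prod_eq] at hφ
    have h1 : ∏ v, f.ent v (φ v) = 1 := Finset.prod_eq_one (fun v _ => hφ.2 v)
    have h2 : ∏ v, f.ent v ((g φ) v) = 1 := Finset.prod_eq_one (fun v _ => (hg φ hφ.2).1 v)
    rw [h1, h2]
    decide
  · intro φ hφ _
    rw [mem_filter, f.prod_eq] at hφ
    exact (hg φ hφ.2).2.2
  · intro φ hφ
    rw [mem_filter, f.prod_eq] at hφ ⊢
    exact ⟨mem_univ _, (hg φ hφ.2).1⟩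
  · intro φ hφ
    rw [mem_filter, f.prod_eq] at hφ
    exact hgg φ hφ.2

/-- The main linear algebra theorem. -/
theorem isomorphic (f : PerpIso Γ Δ) (hΓ : Γ.Special) (hns : Γ.NoSatellites) :
    Isomorphic Γ Δ := by
  classical
  -- the class `theta` transported
  have hθ : ∀ β, Δ.perp β (β + f.A Γ.theta) := by
    intro β
    have h1 := hΓ.perp_theta (f.A.symm β)
    rw [f.perp_iff, map_add] at h1
    simpa using h1
  have hΔ : Δ.Special := special_of_theta Δ hθ
  obtain ⟨φ, hφ, hbad⟩ := f.exists_good_trans hΓ hΔ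
  -- the bijection is an isomorphism of underlying graphs
  have hback : ∀ a b, Δ.Adj (φ a) (φ b) → Γ.Adj a b := by
    intro a b hab
    by_contra hn
    have hne : a ≠ b := by
      rintro rfl
      exact hab.ne rfl
    have : (a, b) ∈ badSet Γ Δ φ := ⟨hne, hn, hab⟩
    rw [hbad] at this
    exact this
  have hadj : ∀ a b, Γ.Adj a b ↔ Δ.Adj (φ a) (φ b) := by
    intro a b
    refine ⟨fun hab => ?_, hback a b⟩
    have hdeg := f.degree_eq hΓ hΔ hφ a
    unfold degree at hdeg
    have hsub : (univ.filter (fun w => Δ.Adj (φ a) w)) ⊆ (univ.filter (fun w => Γ.Adj a w)).image φ := by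
      intro w hw
      simp only [mem_filter, mem_univ, true_and, mem_image] at hw ⊢
      refine ⟨φ.symm w, hback a _ ?_, by simp⟩
      simpa using hw
    have heq := Finset.eq_of_subset_of_card_le hsub (by
      rw [Finset.card_image_of_injective _ φ.injective, hdeg])
    have : φ b ∈ (univ.filter (fun w => Γ.Adj a w)).image φ := by
      simp only [mem_image, mem_filter, mem_univ, true_and]
      exact ⟨b, hab, rfl⟩
    rw [← heq] at this
    simpa using this
  -- no satellites, in a convenient form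
  have hsat : ∀ s v, Γ.Negative s → s ≠ v → ¬ Γ.Adj s v → (∃ w, Γ.Adj v w) →
      (∀ y, Γ.Adj v y → Γ.Adj s y) → False := by
    intro s v hs hne hna ⟨w, hw⟩ hdom
    refine hns s v (hΓ s hs) ⟨?_, hdom⟩
    exact edist_eq_two Γ.toSimpleGraph hne hna (hdom w hw) hw
  -- domination in `Γ`
  have hdomΓ : ∀ s v, ¬ Γ.Org s → f.ent s (φ v) = 1 → s ≠ v → ¬ Γ.Adj s v →
      ∀ y, Γ.Adj v y → Γ.Adj s y := by
    intro s v hs hent hne hna y hy
    have h1 := f.dom hΓ hΔ hφ s (φ v) hent (f.good_of_not_org hs _) (φ y) ((hadj v y).1 hy)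
    rcases h1 with h | h
    · exact absurd ((φ.injective h) ▸ hy).symm hna
    · exact (hadj s y).2 h
  -- sinkholes correspond
  have hneg : ∀ v, Γ.Negative v ↔ Δ.Negative (φ v) := by
    have hval : ∀ v, f.A Γ.theta (φ v) = ∑ s ∈ univ.filter (fun s => Γ.Negative s), f.ent s (φ v) := by
      intro v
      have : Γ.theta = ∑ s ∈ univ.filter (fun s => Γ.Negative s), (Pi.single s (1 : F2) : V → F2) := by
        funext u
        rw [Finset.sum_apply]
        by_cases hu : Γ.Negative u
        · rw [theta_pos Γ hu, Finset.sum_eq_single u]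
          · simp
          · intro s _ hsu
            exact Pi.single_eq_of_ne hsu.symm 1
          · intro hcon
            simp [hu] at hcon
        · rw [theta_neg Γ hu, Finset.sum_eq_zero]
          intro s hs
          have : u ≠ s := by
            rintro rfl
            simp [hu] at hs
          exact Pi.single_eq_of_ne this 1
      conv_lhs => rw [this]
      rw [map_sum, Finset.sum_apply]
      rfl
    intro v
    constructor
    · intro hv
      -- the coefficient is one
      obtain ⟨a, ha⟩ := hv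
      have hv' : Γ.Negative v := ⟨a, ha⟩
      have hone : f.A Γ.theta (φ v) = 1 := by
        rw [hval, Finset.sum_eq_single v]
        · exact hφ v
        · intro s hs hsv
          by_contra hent
          have hs' : Γ.Negative s := by simpa using hs
          have hso : ¬ Γ.Org s := fun ho => hΓ.org_not_neg ho hs'
          have hna : ¬ Γ.Adj s v := by
            intro hadj'
            have h1 := hΓ v hv' s hadj'
            exact hso ⟨v, h1⟩
          exact hsat s v hs' hsv hna ⟨a, (Γ.dir_adj _ _ ha).symm⟩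
            (hdomΓ s v hso (F2_ne_zero hent) hsv hna)
        · intro hcon
          simp [hv'] at hcon
      by_contra hn
      have hz := theta_of_not_neg Δ hθ hn ⟨φ a, (hadj v a).1 (Γ.dir_adj _ _ ha).symm⟩
      rw [hz] at hone
      exact zero_ne_one hone
    · intro hv
      obtain ⟨a', ha'⟩ := hv
      have hone : f.A Γ.theta (φ v) = 1 := theta_term Δ hθ ha'
      rw [hval] at hone
      have hex : ∃ s ∈ univ.filter (fun s => Γ.Negative s), f.ent s (φ v) ≠ 0 := by
        by_contra hcon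
        push Not at hcon
        rw [Finset.sum_eq_zero hcon] at hone
        exact zero_ne_one hone
      obtain ⟨s, hs, hent⟩ := hex
      have hs' : Γ.Negative s := by simpa using hs
      by_cases hsv : s = v
      · rw [← hsv]; exact hs'
      exfalso
      have hso : ¬ Γ.Org s := fun ho => hΓ.org_not_neg ho hs'
      have hvo : ¬ Γ.Org v := by
        rw [f.org_iff hφ]
        intro ho
        exact hΔ.org_not_neg ho ⟨a', ha'⟩
      have hna : ¬ Γ.Adj s v := by
        intro hadj'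
        exact hvo ⟨s, hΓ s hs' v hadj'.symm⟩
      have hnb : ∃ w, Γ.Adj v w := by
        refine ⟨φ.symm a', (hadj v _).2 ?_⟩
        simpa using (Δ.dir_adj _ _ ha').symm
      exact hsat s v hs' hsv hna hnb (hdomΓ s v hso (F2_ne_zero hent) hsv hna)
  refine ⟨φ, hadj, fun a b => ⟨fun h => ?_, fun h => ?_⟩⟩
  · exact hΔ _ ((hneg b).1 ⟨a, h⟩) _ ((hadj a b).1 (Γ.dir_adj _ _ h))
  · exact hΓ _ ((hneg b).2 ⟨_, h⟩) _ ((hadj a b).2 (Δ.dir_adj _ _ h))

end PerpIso

end MixedGraph

end Pool.Agent.Lib.MP_6cc975_al
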