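import Pool.Agent.Lib.MP_6cc975_al.Defs

set_option autoImplicit false

namespace Pool.Agent.Lib.MP_6cc975_al

open MixedGraph Finset

abbrev F2 := ZMod 2

lemma F2_cases (x : F2) : x = 0 ∨ x = 1 := by
  revert x; decide

lemma F2_ne_zero {x : F2} (h : x ≠ 0) : x = 1 := by
  rcases F2_cases x with h0 | h1
  · exact absurd h0 h
  · exact h1

lemma F2_add_self (x : F2) : x + x = 0 := by
  revert x; decide

namespace MixedGraph

variable {V W : Type}

/-- The relation `α β = 0` in the degree two cohomology. -/
def perp (Γ : MixedGraph V) (α β : V → F2) : Prop :=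
  (∀ a b, Γ.Adj a b → ¬ Γ.dir a b → ¬ Γ.dir b a → α a * β b + α b * β a = 0) ∧
  (∀ a b, Γ.dir a b → α a * β b + α b * β a + α a * β a = 0)

lemma dir_ne (Γ : MixedGraph V) {a b : V} (h : Γ.dir a b) : a ≠ b := (Γ.dir_adj a b h).ne

lemma perp_symm (Γ : MixedGraph V) {α β : V → F2} (h : Γ.perp α β) : Γ.perp β α := by
  refine ⟨fun a b h1 h2 h3 => ?_, fun a b h1 => ?_⟩
  · have := h.1 a b h1 h2 h3
    rw [← this]; ring
  · have := h.2 a b h1
    rw [← this]; ring

/-- The annihilator of `α`. -/
def Ann (Γ : MixedGraph V) (α : V → F2) : Submodule F2 (V → F2) where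
  carrier := {β | Γ.perp α β}
  add_mem' := by
    rintro β β' ⟨h1, h2⟩ ⟨h1', h2'⟩
    refine ⟨fun a b ha hb hc => ?_, fun a b ha => ?_⟩
    · have e1 := h1 a b ha hb hc
      have e2 := h1' a b ha hb hc
      simp only [Pi.add_apply]
      calc _ = (α a * β b + α b * β a) + (α a * β' b + α b * β' a) := by ring
        _ = 0 := by rw [e1, e2, add_zero]
    · have e1 := h2 a b ha
      have e2 := h2' a b ha
      simp only [Pi.add_apply]
      calc _ = (α a * β b + α b * β a + α a * β a) + (α a * β' b + α b * β' a + α a * β' a) := by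
            ring
        _ = 0 := by rw [e1, e2, add_zero]
  zero_mem' := by
    refine ⟨fun a b ha hb hc => ?_, fun a b ha => ?_⟩ <;> simp
  smul_mem' := by
    rintro c β ⟨h1, h2⟩
    refine ⟨fun a b ha hb hc => ?_, fun a b ha => ?_⟩
    · have e1 := h1 a b ha hb hc
      simp only [Pi.smul_apply, smul_eq_mul]
      calc _ = c * (α a * β b + α b * β a) := by ring
        _ = 0 := by rw [e1, mul_zero]
    · have e1 := h2 a b ha
      simp only [Pi.smul_apply, smul_eq_mul]
      calc _ = c * (α a * β b + α b * β a + α a * β a) := by ring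
        _ = 0 := by rw [e1, mul_zero]

lemma mem_Ann (Γ : MixedGraph V) (α β : V → F2) : β ∈ Γ.Ann α ↔ Γ.perp α β := Iff.rfl

/-- `z` is good for `α`: no origin of an edge directed to `z` is in the support of `α`. -/
def Good (Γ : MixedGraph V) (α : V → F2) (z : V) : Prop := ∀ y, Γ.dir y z → α y = 0

/-- If `β` annihilates `α`, vanishes at the good vertex `v` of the support of `α`, then it vanishes
at the neighbours of `v`. -/
lemma vanish (Γ : MixedGraph V) {α β : V → F2} {v : V} (hv : α v = 1) (hg : Γ.Good α v)
    (hβ : Γ.perp α β) (h0 : β v = 0) (w : V) (hw : Γ.Adj v w) : β w = 0 := by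
  by_cases h1 : Γ.dir v w
  · have := hβ.2 v w h1
    rw [hv, h0] at this
    simpa using this
  by_cases h2 : Γ.dir w v
  · have := hβ.2 w v h2
    rw [hv, h0, hg w h2] at this
    simpa using this
  · have := hβ.1 v w hw h1 h2
    rw [hv, h0] at this
    simpa using this

variable [Fintype V] [DecidableEq V] [Fintype W] [DecidableEq W]

/-- The degree. -/
noncomputable def degree (Γ : MixedGraph V) (v : V) : ℕ := by
  classical
  exact (univ.filter (fun w => Γ.Adj v w)).card

/-- Functions supported on the neighbours of `v`. -/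
def nbrSpace (Γ : MixedGraph V) (v : V) : Submodule F2 (V → F2) where
  carrier := {β | ∀ w, ¬ Γ.Adj v w → β w = 0}
  add_mem' := by
    intro β β' h h' w hw
    simp [h w hw, h' w hw]
  zero_mem' := by intro w _; rfl
  smul_mem' := by
    intro c β h w hw
    simp [h w hw]

lemma finrank_nbrSpace (Γ : MixedGraph V) (v : V) :
    Module.finrank F2 (Γ.nbrSpace v) = Γ.degree v := by
  classical
  let e : (Γ.nbrSpace v) ≃ₗ[F2] ({w : V // Γ.Adj v w} → F2) :=
    { toFun := fun β w => β.1 w.1
      map_add' := by intro β β'; rfl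
      map_smul' := by intro c β; rfl
      invFun := fun f => ⟨fun w => if h : Γ.Adj v w then f ⟨w, h⟩ else 0, by
        intro w hw
        simp [hw]⟩
      left_inv := by
        intro β
        apply Subtype.ext
        funext w
        by_cases hw : Γ.Adj v w
        · simp [hw]
        · simp only [dif_neg hw]
          exact (β.2 w hw).symm
      right_inv := by
        intro f
        funext w
        simp [w.2] }
  rw [LinearEquiv.finrank_eq e, Module.finrank_fintype_fun_eq_card, degree, Fintype.card_subtype]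

/-- Upper bound for the codimension of the annihilator of a vertex. -/
lemma le_degree_add (Γ : MixedGraph V) (v : V) :
    Fintype.card V ≤ Γ.degree v + Module.finrank F2 (Γ.Ann (Pi.single v 1)) := by
  classical
  let L : (V → F2) →ₗ[F2] ({w : V // Γ.Adj v w} → F2) :=
    { toFun := fun β w => β w.1 + if Γ.dir v w.1 then β v else 0
      map_add' := by
        intro β β'
        funext w
        simp only [Pi.add_apply]
        split_ifs <;> ring
      map_smul' := by
        intro c β
        funext w
        simp only [Pi.smul_apply, smul_eq_mul, RingHom.id_apply]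
        split_ifs <;> ring }
  have hker : LinearMap.ker L ≤ Γ.Ann (Pi.single v 1) := by
    intro β hβ
    have hβ' : ∀ w, Γ.Adj v w → β w + (if Γ.dir v w then β v else 0) = 0 := by
      intro w hw
      have := congrFun (LinearMap.mem_ker.1 hβ) ⟨w, hw⟩
      exact this
    have hs1 : (Pi.single v (1 : F2) : V → F2) v = 1 := Pi.single_eq_same v 1
    have hs0 : ∀ w, w ≠ v → (Pi.single v (1 : F2) : V → F2) w = 0 :=
      fun w hw => Pi.single_eq_of_ne hw 1
    refine ⟨fun a b h1 h2 h3 => ?_, fun a b h1 => ?_⟩
    · have hab : a ≠ b := h1.ne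
      by_cases ha : a = v
      · subst ha
        rw [hs1, hs0 b hab.symm]
        have := hβ' b h1
        rw [if_neg h2] at this
        simpa using this
      · by_cases hb : b = v
        · subst hb
          rw [hs1, hs0 a ha]
          have := hβ' a h1.symm
          rw [if_neg h3] at this
          simpa using this
        · rw [hs0 a ha, hs0 b hb]; simp
    · have hab : a ≠ b := Γ.dir_ne h1
      by_cases ha : a = v
      · subst ha
        rw [hs1, hs0 b hab.symm]
        have := hβ' b (Γ.dir_adj _ _ h1)
        rw [if_pos h1] at this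
        simpa using this
      · by_cases hb : b = v
        · subst hb
          rw [hs1, hs0 a ha]
          have := hβ' a (Γ.dir_adj _ _ h1).symm
          rw [if_neg (Γ.dir_asymm _ _ h1)] at this
          simpa using this
        · rw [hs0 a ha, hs0 b hb]; simp
  have h1 := LinearMap.finrank_range_add_finrank_ker L
  have h2 : Module.finrank F2 (LinearMap.range L) ≤ Γ.degree v := by
    refine (Submodule.finrank_le _).trans ?_
    rw [Module.finrank_fintype_fun_eq_card, degree, Fintype.card_subtype]
  have h3 := Submodule.finrank_mono hker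
  rw [Module.finrank_fintype_fun_eq_card] at h1
  omega

lemma nbr_inf (Γ : MixedGraph V) {α : V → F2} {v : V} (hv : α v = 1) (hg : Γ.Good α v) :
    Γ.nbrSpace v ⊓ Γ.Ann α = ⊥ := by
  rw [eq_bot_iff]
  rintro β ⟨h1, h2⟩
  have hv0 : β v = 0 := h1 v (Γ.loopless.irrefl v)
  rw [Submodule.mem_bot]
  funext w
  by_cases hw : Γ.Adj v w
  · exact vanish Γ hv hg h2 hv0 w hw
  · exact h1 w hw

/-- Lower bound for the codimension of the annihilator. -/
lemma degree_add_le (Γ : MixedGraph V) {α : V → F2} {v : V} (hv : α v = 1) (hg : Γ.Good α v) :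
    Γ.degree v + Module.finrank F2 (Γ.Ann α) ≤ Fintype.card V := by
  have h := Submodule.finrank_sup_add_finrank_inf_eq (Γ.nbrSpace v) (Γ.Ann α)
  rw [nbr_inf Γ hv hg, finrank_bot, finrank_nbrSpace] at h
  have h2 := Submodule.finrank_le (Γ.nbrSpace v ⊔ Γ.Ann α)
  rw [Module.finrank_fintype_fun_eq_card] at h2
  omega

/-- Equality case: vertices not adjacent to `v` annihilate `α`. -/
lemma single_perp (Γ : MixedGraph V) {α : V → F2} {v : V} (hv : α v = 1) (hg : Γ.Good α v)
    (hc : Fintype.card V ≤ Γ.degree v + Module.finrank F2 (Γ.Ann α)) (y : V) (hy : y ≠ v)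
    (hyv : ¬ Γ.Adj v y) : Γ.perp α (Pi.single y 1) := by
  have h := Submodule.finrank_sup_add_finrank_inf_eq (Γ.nbrSpace v) (Γ.Ann α)
  rw [nbr_inf Γ hv hg, finrank_bot, finrank_nbrSpace] at h
  have htop : Γ.nbrSpace v ⊔ Γ.Ann α = ⊤ := by
    apply Submodule.eq_top_of_finrank_eq
    rw [Module.finrank_fintype_fun_eq_card]
    have h2 := Submodule.finrank_le (Γ.nbrSpace v ⊔ Γ.Ann α)
    rw [Module.finrank_fintype_fun_eq_card] at h2
    omega
  have hmem : (Pi.single y (1 : F2) : V → F2) ∈ Γ.nbrSpace v ⊔ Γ.Ann α := by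
    rw [htop]; trivial
  rw [Submodule.mem_sup] at hmem
  obtain ⟨κ, hκ, β, hβ, hsum⟩ := hmem
  have hκv : κ v = 0 := hκ v (Γ.loopless.irrefl v)
  have hβv : β v = 0 := by
    have := congrFun hsum v
    rw [Pi.add_apply, hκv, Pi.single_eq_of_ne hy.symm] at this
    simpa using this
  have hκ0 : κ = 0 := by
    funext w
    by_cases hw : Γ.Adj v w
    · have h1 := vanish Γ hv hg hβ hβv w hw
      have h2 := congrFun hsum w
      have h3 : w ≠ y := by
        rintro rfl
        exact hyv hw
      rw [Pi.add_apply, h1, Pi.single_eq_of_ne h3] at h2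
      simpa using h2
    · exact hκ w hw
  rw [hκ0, zero_add] at hsum
  rw [← hsum]
  exact hβ

/-- Equality case: `v` dominates all the good vertices of the support of `α`. -/
lemma dominate (Γ : MixedGraph V) {α : V → F2} {v : V} (hv : α v = 1) (hg : Γ.Good α v)
    (hc : Fintype.card V ≤ Γ.degree v + Module.finrank F2 (Γ.Ann α)) (z : V) (hz : α z = 1)
    (hgz : Γ.Good α z) (y : V) (hzy : Γ.Adj z y) : y = v ∨ Γ.Adj v y := by
  by_contra hcon
  push Not at hcon
  have hp := single_perp Γ hv hg hc y hcon.1 hcon.2
  have hyz : y ≠ z := hzy.ne'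
  have s1 : (Pi.single y (1 : F2) : V → F2) y = 1 := Pi.single_eq_same y 1
  have s0 : (Pi.single y (1 : F2) : V → F2) z = 0 := Pi.single_eq_of_ne hyz.symm 1
  by_cases h1 : Γ.dir z y
  · have := hp.2 z y h1
    rw [s1, s0, hz] at this
    simp at this
  by_cases h2 : Γ.dir y z
  · have := hp.2 y z h2
    rw [s1, s0, hz, hgz y h2] at this
    simp at this
  · have := hp.1 z y hzy h1 h2
    rw [s1, s0, hz] at this
    simp at this

end MixedGraph

end Pool.Agent.Lib.MP_6cc975_al
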